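import Pool.Agent.Helper20.Mono.Goals

/-! Packet E2 of MP_aa7fc1_ag: `ClassKill`. -/

namespace Mono

open Finset MvPolynomial

variable {n : ℕ}

theorem Fan.Esum_add (Φ : Fan n) (σ : Finset (Fin n → ℤ)) (w : Fin n → ℝ)
    (y z : MvPolynomial (Fin n → ℤ) ℝ) : Φ.Esum σ w (y + z) = Φ.Esum σ w y + Φ.Esum σ w z := by
  unfold Fan.Esum
  rw [← Finset.sum_add_distrib]
  refine Finset.sum_congr rfl fun F _ => ?_
  rw [map_add, add_div]

theorem Fan.Esum_zero (Φ : Fan n) (σ : Finset (Fin n → ℤ)) (w : Fin n → ℝ) :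
    Φ.Esum σ w 0 = 0 := by
  unfold Fan.Esum
  simp

theorem Fan.Esum_C_mul (Φ : Fan n) (σ : Finset (Fin n → ℤ)) (w : Fin n → ℝ) (a : ℝ)
    (y : MvPolynomial (Fin n → ℤ) ℝ) : Φ.Esum σ w (C a * y) = a * Φ.Esum σ w y := by
  unfold Fan.Esum
  rw [Finset.mul_sum]
  refine Finset.sum_congr rfl fun F _ => ?_
  rw [map_mul, eval_C, mul_div_assoc]

theorem Fan.Esum_sum (Φ : Fan n) (σ : Finset (Fin n → ℤ)) (w : Fin n → ℝ) {ι : Type*}
    (s : Finset ι) (f : ι → MvPolynomial (Fin n → ℤ) ℝ) :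
    Φ.Esum σ w (∑ i ∈ s, f i) = ∑ i ∈ s, Φ.Esum σ w (f i) := by
  classical
  induction s using Finset.induction_on with
  | empty => simp [Fan.Esum_zero]
  | insert a s ha ih => rw [Finset.sum_insert ha, Finset.sum_insert ha, Fan.Esum_add, ih]

/-- Passing from the star of `G` to the star of `σ ⊇ G`. -/
theorem Fan.Esum_star (Φ : Fan n) {G σ : Finset (Fin n → ℤ)} (hG : G ⊆ σ) (w : Fin n → ℝ)
    (hw : Φ.Generic w) (y : MvPolynomial (Fin n → ℤ) ℝ) :
    Φ.Esum G w ((∏ t ∈ σ \ G, X t) * y) = Φ.Esum σ w y := by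
  unfold Fan.Esum
  have hsub : Φ.mx.filter (fun F => σ ⊆ F) ⊆ Φ.mx.filter (fun F => G ⊆ F) := by
    intro F hF
    rw [Finset.mem_filter] at hF ⊢
    exact ⟨hF.1, hG.trans hF.2⟩
  rw [← Finset.sum_subset hsub]
  · refine Finset.sum_congr rfl fun F hF => ?_
    rw [Finset.mem_filter] at hF
    have h1 : F \ G = (F \ σ) ∪ (σ \ G) := by
      ext t
      simp only [Finset.mem_sdiff, Finset.mem_union]
      constructor
      · rintro ⟨h1, h2⟩
        by_cases h3 : t ∈ σ
        · exact Or.inr ⟨h3, h2⟩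
        · exact Or.inl ⟨h1, h3⟩
      · rintro (⟨h1, h2⟩ | ⟨h1, h2⟩)
        · exact ⟨h1, fun h => h2 (hG h)⟩
        · exact ⟨hF.2 h1, h2⟩
    have hd : Disjoint (F \ σ) (σ \ G) := by
      rw [Finset.disjoint_left]
      intro t h1 h2
      exact (Finset.mem_sdiff.1 h1).2 (Finset.mem_sdiff.1 h2).1
    have hne : ∏ t ∈ σ \ G, crd F w t ≠ 0 := by
      rw [Finset.prod_ne_zero_iff]
      intro t ht
      exact hw.1 F hF.1 t (hF.2 (Finset.mem_sdiff.1 ht).1)
    rw [h1, Finset.prod_union hd, map_mul, map_prod]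
    simp only [eval_X]
    rw [mul_comm (∏ t ∈ σ \ G, crd F w t), ← mul_assoc]
    exact mul_div_mul_right _ _ hne
  · intro F hF hF'
    rw [Finset.mem_filter] at hF hF'
    have h1 : ¬ σ ⊆ F := fun h => hF' ⟨hF.1, h⟩
    rw [Finset.not_subset] at h1
    obtain ⟨t, ht, htF⟩ := h1
    have h2 : ∏ t ∈ σ \ G, crd F w t = 0 :=
      Finset.prod_eq_zero (Finset.mem_sdiff.2 ⟨ht, fun h => htF (hF.2 h)⟩)
        (crd_of_notMem F w htF)
    rw [map_mul, map_prod]
    simp only [eval_X]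
    rw [h2]
    simp

/-- Indicator exponent. -/
noncomputable def ind (P : Finset (Fin n → ℤ)) : (Fin n → ℤ) →₀ ℕ :=
  ∑ t ∈ P, Finsupp.single t 1

theorem ind_apply (P : Finset (Fin n → ℤ)) [DecidableEq (Fin n → ℤ)] (u : Fin n → ℤ) :
    ind P u = if u ∈ P then 1 else 0 := by
  unfold ind
  rw [Finsupp.finsetSum_apply]
  simp [Finsupp.single_apply]

theorem ind_support (P : Finset (Fin n → ℤ)) : (ind P).support = P := by
  classical
  ext u
  rw [Finsupp.mem_support_iff, ind_apply]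
  simp

theorem ind_degree (P : Finset (Fin n → ℤ)) : (ind P).degree = P.card := by
  unfold ind
  rw [map_sum]
  simp [Finsupp.degree_single]

theorem monomial_ind (P : Finset (Fin n → ℤ)) :
    monomial (ind P) (1 : ℝ) = ∏ t ∈ P, X t := by
  unfold ind
  rw [monomial_sum_one]
  rfl

theorem classKill (h : PairVanish) : ClassKill := by
  classical
  intro n Φ Z σ c hσ hStar w hw B hB d y hy hcard
  obtain ⟨hface, hc0, hone⟩ := hσ
  -- reduction to a monomial
  rw [y.as_sum, Finset.mul_sum, Fan.Esum_sum]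
  refine Finset.sum_eq_zero fun m hm => ?_
  have hmd : m.degree = d := by
    have := hy (mem_support_iff.1 hm)
    rw [Finsupp.degree_eq_weight_one]
    exact this
  have hmon : monomial m (coeff m y) = C (coeff m y) * monomial m (1 : ℝ) := by
    rw [C_mul_monomial, mul_one]
  rw [hmon]
  have hre : (∏ u ∈ B, (X u : MvPolynomial (Fin n → ℤ) ℝ)) * (∏ p ∈ apex Z σ B, X p) *
      (C (coeff m y) * monomial m (1 : ℝ)) = C (coeff m y) *
      ((∏ u ∈ B, X u) * (∏ p ∈ apex Z σ B, X p) * monomial m (1 : ℝ)) := by ring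
  rw [hre, Fan.Esum_C_mul]
  refine mul_eq_zero_of_right _ ?_
  -- notation
  set G := ncore Z σ c with hGdef
  have hGσ : G ⊆ σ := Finset.filter_subset _ _
  set P := (σ \ G).filter (fun t => 0 < c t) with hPdef
  set N := (σ \ G).filter (fun t => c t < 0) with hNdef
  have hPN : σ \ G = P ∪ N := by
    ext t
    simp only [hPdef, hNdef, Finset.mem_union, Finset.mem_filter]
    constructor
    · intro ht
      rcases lt_or_gt_of_ne (hc0 t (Finset.mem_sdiff.1 ht).1) with h1 | h1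
      · exact Or.inr ⟨ht, h1⟩
      · exact Or.inl ⟨ht, h1⟩
    · rintro (h1 | h1) <;> exact h1.1
  have hdPN : Disjoint P N := by
    rw [Finset.disjoint_left]
    intro t h1 h2
    rw [hPdef, Finset.mem_filter] at h1
    rw [hNdef, Finset.mem_filter] at h2
    linarith [h1.2, h2.2]
  have hint : ∀ t ∈ σ \ G, t ∉ Z ∧ ∃ z : ℤ, c t = z := by
    intro t ht
    rw [Finset.mem_sdiff] at ht
    have h2 : ¬ (t ∈ Z ∨ ∀ z : ℤ, c t ≠ z) := by
      intro h3
      exact ht.2 (by rw [hGdef]; exact Finset.mem_filter.2 ⟨ht.1, h3⟩)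
    push Not at h2
    exact h2
  have hnn : ∀ t ∈ σ, ∀ i, 0 ≤ t i := fun t ht i =>
    Φ.vert_nonneg t (Fan.IsFace.subset_vert Φ hface ht) i
  have hGz : ∀ i, i ∉ cs G → ∀ t ∈ G, t i = 0 := by
    intro i hi t ht
    by_contra h1
    exact hi (by simp only [cs, Finset.mem_filter, Finset.mem_univ, true_and]; exact ⟨t, ht, h1⟩)
  -- the coordinate sum
  have hsum : ∀ i, i ∉ cs G → (1 : ℝ) = ∑ t ∈ σ \ G, c t * (t i : ℝ) := by
    intro i hi
    have h1 := congrFun hone i
    rw [Finset.sum_apply] at h1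
    simp only [Pi.smul_apply, toR_apply, smul_eq_mul] at h1
    rw [h1, ← Finset.sum_sdiff hGσ]
    have h2 : ∑ t ∈ G, c t * (t i : ℝ) = 0 := by
      refine Finset.sum_eq_zero fun t ht => ?_
      rw [hGz i hi t ht]
      simp
    rw [h2, add_zero]
  -- (1)
  have hstep1 : monomial (ind P) (1 : ℝ) ∈ Φ.bad G ⊔ Ideal.span (Set.range Φ.theta) := by
    refine hStar (ind P) ?_
    intro i hi
    rw [ind_support]
    by_contra hcon
    push Not at hcon
    have h1 := hsum i hi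
    rw [hPN, Finset.sum_union hdPN] at h1
    have h2 : ∑ t ∈ P, c t * (t i : ℝ) = 0 := by
      refine Finset.sum_eq_zero fun t ht => ?_
      rw [hcon t ht]
      simp
    have h3 : ∑ t ∈ N, c t * (t i : ℝ) ≤ 0 := by
      refine Finset.sum_nonpos fun t ht => ?_
      rw [hNdef, Finset.mem_filter] at ht
      have h4 : (0 : ℝ) ≤ (t i : ℝ) := by exact_mod_cast hnn t (Finset.mem_sdiff.1 ht.1).1 i
      exact mul_nonpos_of_nonpos_of_nonneg ht.2.le h4
    linarith
  -- (2)
  have hstep2 : ∀ i, i ∉ cs G →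
      ∃ u ∈ (ind N + ind B + ind (apex Z σ B) + m).support, u i ≠ 0 := by
    intro i hi
    have hmem : ∀ u, (u ∈ N ∨ u ∈ B ∨ u ∈ apex Z σ B) →
        u ∈ (ind N + ind B + ind (apex Z σ B) + m).support := by
      intro u hu
      rw [Finsupp.mem_support_iff]
      simp only [Finsupp.add_apply, ind_apply]
      rcases hu with hu | hu | hu <;> simp [hu]
    by_cases hN : ∃ t ∈ N, t i ≠ 0
    · obtain ⟨t, ht, hti⟩ := hN
      exact ⟨t, hmem t (Or.inl ht), hti⟩
    push Not at hN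
    by_cases hBi : ∃ u ∈ B, u i ≠ 0
    · obtain ⟨u, hu, hui⟩ := hBi
      exact ⟨u, hmem u (Or.inr (Or.inl hu)), hui⟩
    push Not at hBi
    -- exactly one p in P
    have h1 := hsum i hi
    rw [hPN, Finset.sum_union hdPN] at h1
    have h2 : ∑ t ∈ N, c t * (t i : ℝ) = 0 := by
      refine Finset.sum_eq_zero fun t ht => ?_
      rw [hN t ht]
      simp
    rw [h2, add_zero] at h1
    have hPm : ∀ t ∈ P, t ∈ σ ∧ t ∉ G ∧ 0 < c t := by
      intro t ht
      rw [hPdef, Finset.mem_filter, Finset.mem_sdiff] at ht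
      exact ⟨ht.1.1, ht.1.2, ht.2⟩
    have hc1 : ∀ t ∈ P, 1 ≤ c t := by
      intro t ht
      obtain ⟨h3, h4, h5⟩ := hPm t ht
      obtain ⟨z, hz⟩ := (hint t (Finset.mem_sdiff.2 ⟨h3, h4⟩)).2
      rw [hz] at h5 ⊢
      have : 0 < z := by exact_mod_cast h5
      exact_mod_cast this
    have hex : ∃ p ∈ P, p i ≠ 0 := by
      by_contra hcon
      push Not at hcon
      have : ∑ t ∈ P, c t * (t i : ℝ) = 0 := by
        refine Finset.sum_eq_zero fun t ht => ?_
        rw [hcon t ht]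
        simp
      linarith
    obtain ⟨p, hp, hpi⟩ := hex
    have hpi1 : 1 ≤ p i := by
      have := hnn p (hPm p hp).1 i
      omega
    have hterm : ∀ t ∈ P, 0 ≤ c t * (t i : ℝ) := by
      intro t ht
      have h4 : (0 : ℝ) ≤ (t i : ℝ) := by exact_mod_cast hnn t (hPm t ht).1 i
      exact mul_nonneg (hPm t ht).2.2.le h4
    have hsplit : ∑ t ∈ P, c t * (t i : ℝ) = c p * (p i : ℝ) + ∑ t ∈ P.erase p, c t * (t i : ℝ) :=
      (Finset.add_sum_erase P (fun t => c t * (t i : ℝ)) hp).symm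
    have hrest : ∀ t ∈ P.erase p, 0 ≤ c t * (t i : ℝ) := fun t ht =>
      hterm t (Finset.mem_of_mem_erase ht)
    have hrest0 : 0 ≤ ∑ t ∈ P.erase p, c t * (t i : ℝ) := Finset.sum_nonneg hrest
    have hpi1' : (1 : ℝ) ≤ (p i : ℝ) := by exact_mod_cast hpi1
    have hcp := hc1 p hp
    have hge : (p i : ℝ) ≤ c p * (p i : ℝ) := by nlinarith
    have hpeq : (p i : ℝ) = 1 := by linarith
    have hz : ∑ t ∈ P.erase p, c t * (t i : ℝ) = 0 := by linarith
    have hzero : ∀ t ∈ P.erase p, t i = 0 := by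
      intro t ht
      have h5 := (Finset.sum_eq_zero_iff_of_nonneg hrest).1 hz t ht
      have h6 := (hPm t (Finset.mem_of_mem_erase ht)).2.2
      rcases mul_eq_zero.1 h5 with h7 | h7
      · linarith
      · exact_mod_cast h7
    refine ⟨p, hmem p (Or.inr (Or.inr ?_)), hpi⟩
    unfold apex
    rw [Finset.mem_filter]
    refine ⟨Finset.mem_sdiff.2 ⟨(hPm p hp).1,
      (hint p (Finset.mem_sdiff.2 ⟨(hPm p hp).1, (hPm p hp).2.1⟩)).1⟩, i,
      by exact_mod_cast hpeq, ?_, hBi⟩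
    intro t ht htp
    by_cases htG : t ∈ G
    · exact hGz i hi t htG
    have h7 : t ∈ P ∪ N := by
      rw [← hPN]
      exact Finset.mem_sdiff.2 ⟨ht, htG⟩
    rcases Finset.mem_union.1 h7 with h8 | h8
    · exact hzero t (Finset.mem_erase.2 ⟨htp, h8⟩)
    · exact hN t h8
  -- (3)
  have hcards : P.card + N.card + G.card = σ.card := by
    rw [← Finset.card_union_of_disjoint hdPN, ← hPN, Finset.card_sdiff_add_card_eq_card hGσ]
  have hdeg : (ind P).degree + (ind N + ind B + ind (apex Z σ B) + m).degree + G.card ≤ n := by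
    rw [map_add, map_add, map_add, ind_degree, ind_degree, ind_degree, ind_degree, hmd]
    omega
  have key := h n Φ G (Fan.IsFace.subset Φ hface hGσ) w hw (ind P)
    (ind N + ind B + ind (apex Z σ B) + m) hstep1 hstep2 hdeg
  rw [← Fan.Esum_star Φ hGσ w hw]
  convert key using 2
  have hmul : ∀ a b : (Fin n → ℤ) →₀ ℕ, monomial (a + b) (1 : ℝ) =
      monomial a (1 : ℝ) * monomial b (1 : ℝ) := by
    intro a b
    rw [monomial_mul, mul_one]
  rw [hmul, hmul, hmul, hmul, monomial_ind, monomial_ind, monomial_ind, monomial_ind, hPN,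
    Finset.prod_union hdPN]
  ring

end Mono
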